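import Mathlib

/-!
# MP_d7e141_nt: the Frobenius number of digit sums of multiples of odd divisors of `b + 1`

For odd `n ≥ 3` with `n ∣ b + 1` we prove `F(b, n) = n - 2`.
-/

set_option autoImplicit false

namespace Pool.Agent.Results.MP_d7e141_nt.DivisorsOfBPlusOne

open Finset

/-- The set of base `b` digit sums of positive multiples of `n`. -/
def Out (b n : ℕ) : Set ℕ := {u | ∃ N : ℕ, 0 < N ∧ n ∣ N ∧ (Nat.digits b N).sum = u}

theorem s_add {b : ℕ} (hb : 2 ≤ b) {r q k : ℕ} (hr : r < b ^ k) :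
    (Nat.digits b (r + b ^ k * q)).sum = (Nat.digits b r).sum + (Nat.digits b q).sum := by
  rcases Nat.eq_zero_or_pos q with h0 | h0
  · subst h0; simp
  · have hlen : (Nat.digits b r).length ≤ k := (Nat.digits_length_le_iff (by omega) r).2 hr
    have h := Nat.digits_append_zeroes_append_digits (b := b) (k := k - (Nat.digits b r).length)
      (m := q) (n := r) (by omega) h0
    rw [show (Nat.digits b r).length + (k - (Nat.digits b r).length) = k by omega] at h
    rw [← h]
    simp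

theorem s_powers {b : ℕ} (hb : 2 ≤ b) (S : Finset ℕ) :
    (Nat.digits b (∑ e ∈ S, b ^ e)).sum = S.card := by
  induction S using Finset.induction_on_max with
  | empty => simp
  | insert a S hS ih =>
    have ha : a ∉ S := fun h => lt_irrefl _ (hS a h)
    have hlt : ∑ e ∈ S, b ^ e < b ^ a := Nat.geomSum_lt hb hS
    have h1 : (Nat.digits b 1).sum = 1 := by
      rw [Nat.digits_of_lt b 1 (by omega) (by omega)]; simp
    rw [sum_insert ha, card_insert_of_notMem ha, add_comm (b ^ a)]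
    have := s_add hb (q := 1) hlt
    rw [mul_one, ih, h1] at this
    exact this

theorem alt_bound : ∀ L : List ℕ, |Nat.ofDigits (-1 : ℤ) L| ≤ (L.sum : ℤ) ∧
    (Nat.ofDigits (-1 : ℤ) L) % 2 = (L.sum : ℤ) % 2
  | [] => by
    have e : Nat.ofDigits (-1 : ℤ) [] = 0 := rfl
    rw [e]
    simp
  | d :: L => by
    obtain ⟨h1, h2⟩ := alt_bound L
    have e : Nat.ofDigits (-1 : ℤ) (d :: L) = (d : ℤ) + (-1) * Nat.ofDigits (-1 : ℤ) L := rfl
    rw [e, List.sum_cons, Nat.cast_add]
    rw [abs_le] at h1 ⊢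
    refine ⟨⟨by omega, by omega⟩, by omega⟩

theorem not_mem {b n u : ℕ} (hn : n ∣ b + 1) (hu : u < n) (hodd : u % 2 = 1) : u ∉ Out b n := by
  rintro ⟨N, _, hd, hs⟩
  have hb : (b : ℤ) ≡ -1 [ZMOD n] := by
    rw [Int.modEq_iff_dvd]
    have : (n : ℤ) ∣ ((b + 1 : ℕ) : ℤ) := by exact_mod_cast hn
    have h2 := (dvd_neg (α := ℤ)).2 this
    have e : -((b + 1 : ℕ) : ℤ) = -1 - (b : ℤ) := by push_cast; ring
    rwa [e] at h2
  have h := Nat.zmodeq_ofDigits_digits n b (-1) hb N
  have h0 : (n : ℤ) ∣ (N : ℤ) := by exact_mod_cast hd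
  have h1 : (n : ℤ) ∣ Nat.ofDigits (-1 : ℤ) (Nat.digits b N) := h.dvd_iff.1 h0
  obtain ⟨h2, h3⟩ := alt_bound (Nat.digits b N)
  rw [hs] at h2 h3
  have h4 : Nat.ofDigits (-1 : ℤ) (Nat.digits b N) = 0 :=
    Int.eq_zero_of_abs_lt_dvd h1 (lt_of_le_of_lt h2 (by exact_mod_cast hu))
  rw [h4] at h3
  omega

theorem dvd_range {b n : ℕ} (hn : n ∣ b + 1) : ∀ t : ℕ, n ∣ ∑ e ∈ range (2 * t), b ^ e
  | 0 => by simp
  | t + 1 => by
    rw [show 2 * (t + 1) = 2 * t + 1 + 1 by ring, sum_range_succ, sum_range_succ, add_assoc]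
    refine dvd_add (dvd_range hn t) ?_
    rw [show b ^ (2 * t) + b ^ (2 * t + 1) = (b + 1) * b ^ (2 * t) by ring]
    exact Dvd.dvd.mul_right hn _

theorem mem_even {b n t : ℕ} (hb : 2 ≤ b) (hn : n ∣ b + 1) (ht : 1 ≤ t) : 2 * t ∈ Out b n := by
  refine ⟨∑ e ∈ range (2 * t), b ^ e, ?_, dvd_range hn t, ?_⟩
  · exact sum_pos (fun e _ => by positivity) (by rw [nonempty_range_iff]; omega)
  · rw [s_powers hb, card_range]

theorem mem_odd {b n : ℕ} (hb : 2 ≤ b) (hn : n ∣ b + 1) (hn1 : 1 ≤ n) (t : ℕ) :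
    n + 2 * t ∈ Out b n := by
  have hinj1 : Function.Injective (fun j : ℕ => 2 * j) := fun x y h => by
    simpa using h
  have hinj2 : Function.Injective (fun j : ℕ => 2 * n + j) := fun x y h => by
    simpa using h
  have hdisj : Disjoint ((range n).image (fun j => 2 * j)) ((range (2 * t)).image (fun j => 2 * n + j)) := by
    rw [Finset.disjoint_left]
    intro x hx hy
    rw [mem_image] at hx hy
    obtain ⟨i, hi, rfl⟩ := hx
    obtain ⟨j, _, hj⟩ := hy
    have := mem_range.1 hi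
    omega
  have hcard : ((range n).image (fun j => 2 * j) ∪ (range (2 * t)).image (fun j => 2 * n + j)).card =
      n + 2 * t := by
    rw [card_union_of_disjoint hdisj, card_image_of_injective _ hinj1,
      card_image_of_injective _ hinj2, card_range, card_range]
  refine ⟨∑ e ∈ (range n).image (fun j => 2 * j) ∪ (range (2 * t)).image (fun j => 2 * n + j), b ^ e,
    ?_, ?_, ?_⟩
  · refine sum_pos (fun e _ => by positivity) ?_
    rw [← card_pos, hcard]
    omega
  · rw [sum_union hdisj, sum_image (fun x _ y _ h => hinj1 h), sum_image (fun x _ y _ h => hinj2 h)]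
    refine dvd_add ?_ ?_
    · have hsq : b ^ 2 ≡ 1 [MOD n] := by
        have h1 : 1 ≤ b ^ 2 := Nat.one_le_pow _ _ (by omega)
        refine ((Nat.modEq_iff_dvd' h1).2 ?_).symm
        obtain ⟨c, rfl⟩ : ∃ c, b = c + 1 := ⟨b - 1, by omega⟩
        rw [show (c + 1) ^ 2 - 1 = (c + 1 + 1) * c by
          rw [show (c + 1) ^ 2 = (c + 1 + 1) * c + 1 by ring, Nat.add_sub_cancel]]
        exact Dvd.dvd.mul_right hn _
      have key : ∀ m : ℕ, ∑ j ∈ range m, b ^ (2 * j) ≡ m [MOD n] := by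
        intro m
        induction m with
        | zero => simp [Nat.ModEq]
        | succ m ih =>
          rw [sum_range_succ, pow_mul]
          have := hsq.pow m
          rw [one_pow] at this
          exact ih.add this
      exact ((key n).dvd_iff dvd_rfl).2 dvd_rfl
    · have : ∑ x ∈ range (2 * t), b ^ (2 * n + x) = b ^ (2 * n) * ∑ x ∈ range (2 * t), b ^ x := by
        rw [mul_sum]
        exact sum_congr rfl fun x _ => pow_add _ _ _
      rw [this]
      exact Dvd.dvd.mul_left (dvd_range hn t) _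
  · rw [s_powers hb, hcard]

/-- For `b ≥ 2` and odd `n ≥ 3` with `n ∣ b + 1` the largest positive integer which is not a digit sum of a positive
multiple of `n` is `n - 2`. -/
theorem result (b n : ℕ) (hb : 2 ≤ b) (hn3 : 3 ≤ n) (hodd : n % 2 = 1) (hn : n ∣ b + 1) :
    IsGreatest {u : ℕ | 0 < u ∧ u ∉ Out b n} (n - 2) := by
  refine ⟨⟨by omega, not_mem hn (by omega) (by omega)⟩, ?_⟩
  rintro u ⟨_, hu⟩
  by_contra hlt
  apply hu
  rcases Nat.even_or_odd' u with ⟨t, ht | ht⟩
  · rw [ht]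
    exact mem_even hb hn (by omega)
  · obtain ⟨s, hs⟩ : ∃ s, u = n + 2 * s := ⟨(u - n) / 2, by omega⟩
    rw [hs]
    exact mem_odd hb hn (by omega) s

end Pool.Agent.Results.MP_d7e141_nt.DivisorsOfBPlusOne
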