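import Mathlib

/-!
# MP_d7e141_nt: the Frobenius number of digit sums of multiples of `b^k + 1`

For even `b` and `k ≥ 1` we prove `F(b, b^k + 1) = b - 1`.
-/

set_option autoImplicit false

namespace Pool.Agent.Results.MP_d7e141_nt.PowersPlusOne

open Finset

/-- The set of base `b` digit sums of positive multiples of `n`. -/
def Out (b n : ℕ) : Set ℕ := {u | ∃ N : ℕ, 0 < N ∧ n ∣ N ∧ (Nat.digits b N).sum = u}

theorem s_add {b : ℕ} (hb : 2 ≤ b) {r q k : ℕ} (hr : r < b ^ k) :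
    (Nat.digits b (r + b ^ k * q)).sum = (Nat.digits b r).sum + (Nat.digits b q).sum := by
  rcases Nat.eq_zero_or_pos q with h0 | h0
  · subst h0; simp
  · have hlen : (Nat.digits b r).length ≤ k := (Nat.digits_length_le_iff (by omega) r).2 hr
    have h := Nat.digits_append_zeroes_append_digits (b := b) (k := k - (Nat.digits b r).length)
      (m := q) (n := r) (by omega) h0
    rw [show (Nat.digits b r).length + (k - (Nat.digits b r).length) = k by omega] at h
    rw [← h]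
    simp

theorem s_powers {b : ℕ} (hb : 2 ≤ b) (S : Finset ℕ) :
    (Nat.digits b (∑ e ∈ S, b ^ e)).sum = S.card := by
  induction S using Finset.induction_on_max with
  | empty => simp
  | insert a S hS ih =>
    have ha : a ∉ S := fun h => lt_irrefl _ (hS a h)
    have hlt : ∑ e ∈ S, b ^ e < b ^ a := Nat.geomSum_lt hb hS
    have h1 : (Nat.digits b 1).sum = 1 := by
      rw [Nat.digits_of_lt b 1 (by omega) (by omega)]; simp
    rw [sum_insert ha, card_insert_of_notMem ha, add_comm (b ^ a)]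
    have := s_add hb (q := 1) hlt
    rw [mul_one, ih, h1] at this
    exact this

theorem fold (b k : ℕ) : ∀ L : List ℕ, ∃ c : ℕ → ℤ,
    (∑ i ∈ range (k + 1), |c i| ≤ (L.sum : ℤ)) ∧
    ((∑ i ∈ range (k + 1), c i) % 2 = (L.sum : ℤ) % 2) ∧
    ((b : ℤ) ^ (k + 1) + 1) ∣ (Nat.ofDigits (b : ℤ) L - ∑ i ∈ range (k + 1), c i * (b : ℤ) ^ i)
  | [] => by
    have e : Nat.ofDigits (b : ℤ) [] = 0 := rfl
    exact ⟨fun _ => 0, by simp, by simp, by rw [e]; simp⟩
  | d :: L => by
    obtain ⟨c, h1, h2, h3⟩ := fold b k L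
    have e : Nat.ofDigits (b : ℤ) (d :: L) = (d : ℤ) + (b : ℤ) * Nat.ofDigits (b : ℤ) L := rfl
    refine ⟨fun i => if i = 0 then (d : ℤ) - c k else c (i - 1), ?_, ?_, ?_⟩
    · rw [sum_range_succ', List.sum_cons, Nat.cast_add]
      rw [sum_range_succ] at h1
      simp only [Nat.add_sub_cancel, if_true, Nat.succ_ne_zero, if_false]
      have h4 : |(d : ℤ) - c k| ≤ (d : ℤ) + |c k| := by
        have := abs_sub (d : ℤ) (c k)
        rwa [abs_of_nonneg (show (0 : ℤ) ≤ d by positivity)] at this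
      linarith
    · rw [sum_range_succ', List.sum_cons, Nat.cast_add]
      rw [sum_range_succ] at h2
      simp only [Nat.add_sub_cancel, if_true, Nat.succ_ne_zero, if_false]
      omega
    · obtain ⟨w, hw⟩ := h3
      rw [sum_range_succ'] 
      rw [sum_range_succ] at hw
      simp only [Nat.add_sub_cancel, if_true, Nat.succ_ne_zero, if_false, pow_zero, mul_one]
      refine ⟨b * w + c k, ?_⟩
      have e2 : ∑ i ∈ range k, c i * (b : ℤ) ^ (i + 1) = (b : ℤ) * ∑ i ∈ range k, c i * (b : ℤ) ^ i := by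
        rw [mul_sum]
        exact sum_congr rfl fun i _ => by ring
      rw [e, e2]
      have : (b : ℤ) * Nat.ofDigits (b : ℤ) L = (b : ℤ) * (∑ i ∈ range k, c i * (b : ℤ) ^ i + c k * (b : ℤ) ^ k) +
          (b : ℤ) * (((b : ℤ) ^ (k + 1) + 1) * w) := by rw [← hw]; ring
      rw [this]
      ring

theorem uniq {b : ℕ} (hb : 2 ≤ b) : ∀ (k : ℕ) (c : ℕ → ℤ), (∑ i ∈ range k, |c i| ≤ (b : ℤ) - 1) →
    (∑ i ∈ range k, c i * (b : ℤ) ^ i = 0) → ∑ i ∈ range k, c i = 0
  | 0, _, _, _ => by simp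
  | k + 1, c, h1, h2 => by
    rw [sum_range_succ'] at h1 h2 ⊢
    have hs : 0 ≤ ∑ i ∈ range k, |c (i + 1)| := sum_nonneg fun i _ => abs_nonneg _
    have e2 : ∑ i ∈ range k, c (i + 1) * (b : ℤ) ^ (i + 1) =
        (b : ℤ) * ∑ i ∈ range k, c (i + 1) * (b : ℤ) ^ i := by
      rw [mul_sum]
      exact sum_congr rfl fun i _ => by ring
    rw [e2, pow_zero, mul_one] at h2
    have h3 : (b : ℤ) ∣ c 0 := by
      have : c 0 = (b : ℤ) * -(∑ i ∈ range k, c (i + 1) * (b : ℤ) ^ i) := by linarith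
      exact Dvd.intro _ this.symm
    have h4 : c 0 = 0 := Int.eq_zero_of_abs_lt_dvd h3 (by linarith)
    rw [h4, add_zero] at h2 ⊢
    have hb0 : (b : ℤ) ≠ 0 := by positivity
    have h5 := (mul_eq_zero.1 h2).resolve_left hb0
    refine uniq hb k (fun i => c (i + 1)) ?_ h5
    have := abs_nonneg (c 0)
    linarith

theorem not_mem {b k u : ℕ} (hb : 2 ≤ b) (hu : u < b) (hodd : u % 2 = 1) :
    u ∉ Out b (b ^ (k + 1) + 1) := by
  rintro ⟨N, _, hd, hs⟩
  obtain ⟨c, h1, h2, h3⟩ := fold b k (Nat.digits b N)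
  rw [hs] at h1 h2
  have hN : Nat.ofDigits (b : ℤ) (Nat.digits b N) = (N : ℤ) := by
    have e := Nat.coe_ofDigits ℤ b (Nat.digits b N)
    rw [Nat.ofDigits_digits] at e
    exact e.symm
  rw [hN] at h3
  have h4 : ((b : ℤ) ^ (k + 1) + 1) ∣ (N : ℤ) := by exact_mod_cast hd
  have h5 : ((b : ℤ) ^ (k + 1) + 1) ∣ ∑ i ∈ range (k + 1), c i * (b : ℤ) ^ i :=
    (dvd_sub_right h4).1 h3
  have hub : (u : ℤ) ≤ (b : ℤ) - 1 := by
    have : (u : ℤ) < b := by exact_mod_cast hu
    linarith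
  have h6 : |∑ i ∈ range (k + 1), c i * (b : ℤ) ^ i| < (b : ℤ) ^ (k + 1) + 1 := by
    calc |∑ i ∈ range (k + 1), c i * (b : ℤ) ^ i| ≤ ∑ i ∈ range (k + 1), |c i * (b : ℤ) ^ i| :=
          abs_sum_le_sum_abs _ _
      _ ≤ ∑ i ∈ range (k + 1), |c i| * (b : ℤ) ^ k := by
          refine sum_le_sum fun i hi => ?_
          rw [abs_mul, abs_of_nonneg (show (0 : ℤ) ≤ (b : ℤ) ^ i by positivity)]
          refine mul_le_mul_of_nonneg_left ?_ (abs_nonneg _)
          exact pow_le_pow_right₀ (by exact_mod_cast (by omega : 1 ≤ b)) (by have := mem_range.1 hi; omega)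
      _ = (∑ i ∈ range (k + 1), |c i|) * (b : ℤ) ^ k := by rw [sum_mul]
      _ ≤ (b : ℤ) * (b : ℤ) ^ k := mul_le_mul_of_nonneg_right (by linarith) (by positivity)
      _ = (b : ℤ) ^ (k + 1) := by ring
      _ < (b : ℤ) ^ (k + 1) + 1 := by linarith
  have h7 := Int.eq_zero_of_abs_lt_dvd h5 h6
  have h8 := uniq hb (k + 1) c (h1.trans hub) h7
  rw [h8] at h2
  omega

theorem dvd_range (B : ℕ) : ∀ t : ℕ, (B + 1) ∣ ∑ j ∈ range (2 * t), B ^ j
  | 0 => by simp
  | t + 1 => by
    rw [show 2 * (t + 1) = 2 * t + 1 + 1 by ring, sum_range_succ, sum_range_succ, add_assoc]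
    refine dvd_add (dvd_range B t) ⟨B ^ (2 * t), by ring⟩

theorem block {b k E t : ℕ} (hk : 1 ≤ k) :
    (b ^ k + 1) ∣ ∑ e ∈ (range (2 * t)).image (fun j => E + k * j), b ^ e ∧
      ((range (2 * t)).image (fun j => E + k * j)).card = 2 * t := by
  have hinj : Function.Injective (fun j : ℕ => E + k * j) := fun x y h => by
    simp only [add_right_inj] at h
    exact Nat.eq_of_mul_eq_mul_left (by omega) h
  refine ⟨?_, by rw [card_image_of_injective _ hinj, card_range]⟩
  rw [sum_image (fun x _ y _ h => hinj h)]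
  have : ∑ x ∈ range (2 * t), b ^ (E + k * x) = b ^ E * ∑ x ∈ range (2 * t), (b ^ k) ^ x := by
    rw [mul_sum]
    exact sum_congr rfl fun x _ => by rw [pow_add, pow_mul]
  rw [this]
  exact Dvd.dvd.mul_left (dvd_range _ t) _

theorem mem_even {b k t : ℕ} (hb : 2 ≤ b) (hk : 1 ≤ k) (ht : 1 ≤ t) : 2 * t ∈ Out b (b ^ k + 1) := by
  obtain ⟨h1, h2⟩ := block (b := b) (k := k) (E := 0) (t := t) hk
  refine ⟨_, ?_, h1, by rw [s_powers hb, h2]⟩
  exact sum_pos (fun e _ => by positivity) (by rw [← card_pos, h2]; omega)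

theorem mem_odd {b k : ℕ} (hb : 2 ≤ b) (hk : 1 ≤ k) (t : ℕ) :
    b + 1 + 2 * t ∈ Out b (b ^ k + 1) := by
  obtain ⟨h1, h2⟩ := block (b := b) (k := k) (E := 2 * k * b + k + 2) (t := t) hk
  set B := (range (2 * t)).image (fun j => 2 * k * b + k + 2 + k * j) with hB
  set A := (range b).image (fun j => 2 * k * j) with hA
  have hinj : Function.Injective (fun j : ℕ => 2 * k * j) := fun x y h =>
    Nat.eq_of_mul_eq_mul_left (by omega) h
  have hAc : A.card = b := by rw [hA, card_image_of_injective _ hinj, card_range]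
  have hAlt : ∀ x ∈ A, x < 2 * k * b := by
    intro x hx
    rw [hA, mem_image] at hx
    obtain ⟨j, hj, rfl⟩ := hx
    exact Nat.mul_lt_mul_of_pos_left (mem_range.1 hj) (by omega)
  have hBge : ∀ x ∈ B, 2 * k * b + k + 2 ≤ x := by
    intro x hx
    rw [hB, mem_image] at hx
    obtain ⟨j, _, rfl⟩ := hx
    exact Nat.le_add_right _ _
  have hp : 2 * k * b + k + 1 ∉ A ∪ B := by
    intro h
    rcases mem_union.1 h with h | h
    · have := hAlt _ h; omega
    · have := hBge _ h; omega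
  have hdisj : Disjoint A B := by
    rw [Finset.disjoint_left]
    intro x hx hy
    have := hAlt x hx
    have := hBge x hy
    omega
  have hcard : (insert (2 * k * b + k + 1) (A ∪ B)).card = b + 1 + 2 * t := by
    rw [card_insert_of_notMem hp, card_union_of_disjoint hdisj, hAc, h2]
    ring
  refine ⟨∑ e ∈ insert (2 * k * b + k + 1) (A ∪ B), b ^ e, ?_, ?_, by rw [s_powers hb, hcard]⟩
  · exact sum_pos (fun e _ => by positivity) (by rw [← card_pos, hcard]; omega)
  · rw [sum_insert hp, sum_union hdisj, ← add_assoc]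
    refine dvd_add ?_ h1
    rw [hA, sum_image (fun x _ y _ h => hinj h)]
    have hz : ((b ^ k + 1 : ℕ) : ℤ) ∣ ((b ^ (2 * k * b + k + 1) + ∑ j ∈ range b, b ^ (2 * k * j) : ℕ) : ℤ) := by
      have q1 : (b : ℤ) ^ k ≡ -1 [ZMOD ((b ^ k + 1 : ℕ) : ℤ)] := by
        rw [Int.modEq_iff_dvd]
        refine ⟨-1, ?_⟩
        push_cast
        ring
      have q2 : ∀ j : ℕ, (b : ℤ) ^ (2 * k * j) ≡ 1 [ZMOD ((b ^ k + 1 : ℕ) : ℤ)] := by
        intro j
        have := q1.pow (2 * j)
        rw [show (-1 : ℤ) ^ (2 * j) = 1 by rw [pow_mul]; simp, ← pow_mul,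
          show k * (2 * j) = 2 * k * j by ring] at this
        exact this
      have q3 : ∀ m : ℕ, ∑ j ∈ range m, (b : ℤ) ^ (2 * k * j) ≡ m [ZMOD ((b ^ k + 1 : ℕ) : ℤ)] := by
        intro m
        induction m with
        | zero => simp
        | succ m ih =>
          rw [sum_range_succ]
          push_cast
          push_cast at ih
          exact ih.add (by have := q2 m; push_cast at this; exact this)
      have q4 : (b : ℤ) ^ (2 * k * b + k + 1) ≡ -(b : ℤ) [ZMOD ((b ^ k + 1 : ℕ) : ℤ)] := by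
        have := ((q2 b).mul q1).mul_right (b : ℤ)
        rw [← pow_add, ← pow_succ] at this
        simpa using this
      have q5 := q4.add (q3 b)
      rw [neg_add_cancel] at q5
      have q6 := Int.modEq_zero_iff_dvd.1 q5
      exact_mod_cast q6
    exact_mod_cast hz

/-- For even `b ≥ 2` and `k ≥ 1` the largest positive integer which is not a base `b` digit sum of a positive multiple
of `b^k + 1` is `b - 1`. -/
theorem result (b k : ℕ) (hb : 2 ≤ b) (heven : b % 2 = 0) (hk : 1 ≤ k) :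
    IsGreatest {u : ℕ | 0 < u ∧ u ∉ Out b (b ^ k + 1)} (b - 1) := by
  obtain ⟨l, rfl⟩ : ∃ l, k = l + 1 := ⟨k - 1, by omega⟩
  refine ⟨⟨by omega, not_mem hb (by omega) (by omega)⟩, ?_⟩
  rintro u ⟨_, hu⟩
  by_contra hlt
  apply hu
  rcases Nat.even_or_odd' u with ⟨t, ht | ht⟩
  · rw [ht]
    exact mem_even hb hk (by omega)
  · obtain ⟨s, hs⟩ : ∃ s, u = b + 1 + 2 * s := ⟨(u - b - 1) / 2, by omega⟩
    rw [hs]
    exact mem_odd hb hk s

end Pool.Agent.Results.MP_d7e141_nt.PowersPlusOne
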