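import Mathlib

/-!
# MP_d7e141_nt: the Frobenius number of digit sums of multiples of repunits

For `n = 1 + b + ... + b^(k - 1)` with `k ≥ 2` and `gcd(b - 1, n) = 1` we prove `F(b, n) = (k - 1) (b - 1)`.
-/

set_option autoImplicit false

namespace Pool.Agent.Results.MP_d7e141_nt.Repunits

open Finset

/-- The set of base `b` digit sums of positive multiples of `n`. -/
def Out (b n : ℕ) : Set ℕ := {u | ∃ N : ℕ, 0 < N ∧ n ∣ N ∧ (Nat.digits b N).sum = u}

/-- The repunit `1 + b + ... + b^(k - 1)`. -/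
def rep (b k : ℕ) : ℕ := ∑ i ∈ range k, b ^ i

theorem s_add {b : ℕ} (hb : 2 ≤ b) {r q k : ℕ} (hr : r < b ^ k) :
    (Nat.digits b (r + b ^ k * q)).sum = (Nat.digits b r).sum + (Nat.digits b q).sum := by
  rcases Nat.eq_zero_or_pos q with h0 | h0
  · subst h0; simp
  · have hlen : (Nat.digits b r).length ≤ k := (Nat.digits_length_le_iff (by omega) r).2 hr
    have h := Nat.digits_append_zeroes_append_digits (b := b) (k := k - (Nat.digits b r).length)
      (m := q) (n := r) (by omega) h0
    rw [show (Nat.digits b r).length + (k - (Nat.digits b r).length) = k by omega] at h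
    rw [← h]
    simp

theorem s_rec {b : ℕ} (hb : 2 ≤ b) (n : ℕ) :
    (Nat.digits b n).sum = n % b + (Nat.digits b (n / b)).sum := by
  rcases Nat.eq_zero_or_pos n with h | h
  · subst h; simp
  · rw [Nat.digits_def' (by omega) h]; simp

theorem s_succ {b : ℕ} (hb : 2 ≤ b) : ∀ z : ℕ,
    (Nat.digits b (z + 1)).sum ≤ (Nat.digits b z).sum + 1 := by
  intro z
  induction z using Nat.strong_induction_on with
  | _ z ih =>
    rw [s_rec hb (z + 1), s_rec hb z]
    have e1 := Nat.add_div (a := z) (b := 1) (c := b) (by omega)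
    have e2 := Nat.add_mod z 1 b
    have h1 : 1 % b = 1 := Nat.mod_eq_of_lt (by omega)
    have h2 : 1 / b = 0 := Nat.div_eq_of_lt (by omega)
    have hz : z % b < b := Nat.mod_lt _ (by omega)
    rw [h1] at e1 e2
    rw [h2] at e1
    by_cases hc : b ≤ z % b + 1
    · rw [if_pos hc] at e1
      have h3 : (z % b + 1) % b = 0 := by
        rw [show z % b + 1 = b by omega, Nat.mod_self]
      rw [h3] at e2
      rw [e1, e2]
      have hz0 : z ≠ 0 := by
        rintro rfl
        simp at hc
        omega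
      have := ih (z / b) (Nat.div_lt_self (by omega) (by omega))
      rw [show z / b + 0 + 1 = z / b + 1 by ring]
      omega
    · rw [if_neg hc] at e1
      have h3 : (z % b + 1) % b = z % b + 1 := Nat.mod_eq_of_lt (by omega)
      rw [h3] at e2
      rw [e1, e2]
      simp
      omega

theorem s_le {b : ℕ} (hb : 2 ≤ b) : ∀ x y : ℕ,
    (Nat.digits b (x + y)).sum ≤ (Nat.digits b x).sum + (Nat.digits b y).sum := by
  intro x
  induction x using Nat.strong_induction_on with
  | _ x ih =>
    intro y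
    rcases Nat.eq_zero_or_pos x with h0 | h0
    · subst h0; simp
    · rw [s_rec hb (x + y), s_rec hb x, s_rec hb y]
      have e1 := Nat.add_div (a := x) (b := y) (c := b) (by omega)
      have e2 := Nat.add_mod x y b
      have hx : x % b < b := Nat.mod_lt _ (by omega)
      have hy : y % b < b := Nat.mod_lt _ (by omega)
      have hlt : x / b < x := Nat.div_lt_self h0 (by omega)
      by_cases hc : b ≤ x % b + y % b
      · rw [if_pos hc] at e1
        have h3 : (x % b + y % b) % b = x % b + y % b - b := by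
          rw [Nat.mod_eq_sub_mod hc, Nat.mod_eq_of_lt (by omega)]
        rw [h3] at e2
        rw [e1, e2, add_assoc]
        have i1 := ih (x / b) hlt (y / b + 1)
        have i2 := s_succ hb (y / b)
        omega
      · rw [if_neg hc] at e1
        have h3 : (x % b + y % b) % b = x % b + y % b := Nat.mod_eq_of_lt (by omega)
        rw [h3] at e2
        rw [e1, e2, add_zero]
        have i1 := ih (x / b) hlt (y / b)
        omega

theorem s_small {b : ℕ} {r : ℕ} (hr : r < b) : (Nat.digits b r).sum = r := by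
  rcases Nat.eq_zero_or_pos r with h | h
  · subst h; simp
  · rw [Nat.digits_of_lt b r (by omega) hr]; simp

theorem s_pow_sub_one {b : ℕ} (hb : 2 ≤ b) : ∀ k : ℕ,
    (Nat.digits b (b ^ k - 1)).sum = k * (b - 1)
  | 0 => by simp
  | k + 1 => by
    have hpos : 0 < b ^ k := by positivity
    have e : b ^ (k + 1) - 1 = (b ^ k - 1) + b ^ k * (b - 1) := by
      obtain ⟨c, rfl⟩ : ∃ c, b = c + 1 := ⟨b - 1, by omega⟩
      rw [Nat.add_sub_cancel, pow_succ, mul_add, mul_one]
      omega
    rw [e, s_add hb (by omega), s_pow_sub_one hb k, s_small (by omega)]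
    ring

theorem lower {b k : ℕ} (hb : 2 ≤ b) (hk : 1 ≤ k) : ∀ N : ℕ, 0 < N → (b ^ k - 1) ∣ N →
    k * (b - 1) ≤ (Nat.digits b N).sum := by
  intro N
  induction N using Nat.strong_induction_on with
  | _ N ih =>
    intro hN hd
    have hB : 2 ≤ b ^ k := le_trans hb (Nat.le_self_pow (by omega) b)
    have hdm := Nat.mod_add_div N (b ^ k)
    have hr : N % b ^ k < b ^ k := Nat.mod_lt _ (by omega)
    rcases Nat.eq_zero_or_pos (N / b ^ k) with h0 | h0
    · have hlt : N < b ^ k := by
        rw [h0, mul_zero, add_zero] at hdm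
        omega
      obtain ⟨t, ht⟩ := hd
      have ht1 : t = 1 := by
        rcases Nat.lt_trichotomy t 1 with h | h | h
        · have : t = 0 := by omega
          subst this
          omega
        · exact h
        · have : (b ^ k - 1) * 2 ≤ (b ^ k - 1) * t := Nat.mul_le_mul_left _ h
          omega
      rw [ht, ht1, mul_one, s_pow_sub_one hb k]
    · have h1 : (b ^ k - 1) ∣ N % b ^ k + N / b ^ k := by
        have e : N = (b ^ k - 1) * (N / b ^ k) + (N % b ^ k + N / b ^ k) := by
          obtain ⟨B, hB'⟩ : ∃ B, b ^ k = B + 1 := ⟨b ^ k - 1, by omega⟩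
          rw [hB', Nat.add_sub_cancel]
          rw [hB'] at hdm
          nlinarith [hdm]
        rw [e] at hd
        exact (Nat.dvd_add_right (Dvd.intro _ rfl)).1 hd
      have h2 : N % b ^ k + N / b ^ k < N := by
        have : 2 * (N / b ^ k) ≤ b ^ k * (N / b ^ k) := Nat.mul_le_mul_right _ hB
        omega
      have h3 := ih _ h2 (Nat.add_pos_right _ h0) h1
      have h4 := s_le hb (N % b ^ k) (N / b ^ k)
      have h5 := s_add hb (q := N / b ^ k) hr
      rw [hdm] at h5
      omega

theorem rep_mul {b : ℕ} (hb : 1 ≤ b) : ∀ k : ℕ, (b - 1) * rep b k = b ^ k - 1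
  | 0 => by simp [rep]
  | k + 1 => by
    have ih := rep_mul hb k
    have hpos : 0 < b ^ k := by positivity
    unfold rep at ih ⊢
    rw [sum_range_succ, mul_add, ih]
    obtain ⟨c, rfl⟩ : ∃ c, b = c + 1 := ⟨b - 1, by omega⟩
    rw [Nat.add_sub_cancel, pow_succ, mul_add, mul_one, mul_comm c]
    omega

theorem rep_modEq {b : ℕ} (hb : 1 ≤ b) (k : ℕ) : rep b k ≡ k [MOD (b - 1)] := by
  have h1 : b ≡ 1 [MOD (b - 1)] := by
    have := Nat.modEq_sub hb
    exact this
  induction k with
  | zero => simp [rep, Nat.ModEq]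
  | succ k ih =>
    unfold rep at ih ⊢
    rw [sum_range_succ]
    have := h1.pow k
    rw [one_pow] at this
    exact ih.add this

theorem not_mem {b k : ℕ} (hb : 2 ≤ b) (hk : 2 ≤ k) (hco : Nat.Coprime (b - 1) (rep b k)) :
    (k - 1) * (b - 1) ∉ Out b (rep b k) := by
  rintro ⟨N, hN, hd, hs⟩
  have h1 : (b - 1) ∣ N := by
    rcases Nat.lt_or_ge b 3 with h | h
    · have : b = 2 := by omega
      subst this
      simp
    · have hmod : b % (b - 1) = 1 := by
        rw [Nat.mod_eq_sub_mod (by omega), show b - (b - 1) = 1 by omega]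
        exact Nat.mod_eq_of_lt (by omega)
      rw [Nat.dvd_iff_dvd_digits_sum (b - 1) b hmod, hs]
      exact Dvd.intro_left _ rfl
  have h2 : (b - 1) * rep b k ∣ N := hco.mul_dvd_of_dvd_of_dvd h1 hd
  rw [rep_mul (by omega)] at h2
  have h3 := lower hb (by omega) N hN h2
  rw [hs] at h3
  have h4 : (k - 1) * (b - 1) < k * (b - 1) := Nat.mul_lt_mul_of_pos_right (by omega) (by omega)
  omega

theorem s_powers {b : ℕ} (hb : 2 ≤ b) (S : Finset ℕ) :
    (Nat.digits b (∑ e ∈ S, b ^ e)).sum = S.card := by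
  induction S using Finset.induction_on_max with
  | empty => simp
  | insert a S hS ih =>
    have ha : a ∉ S := fun h => lt_irrefl _ (hS a h)
    have hlt : ∑ e ∈ S, b ^ e < b ^ a := Nat.geomSum_lt hb hS
    rw [sum_insert ha, card_insert_of_notMem ha, add_comm (b ^ a)]
    have := s_add hb (q := 1) hlt
    rw [mul_one, ih, s_small (by omega : 1 < b)] at this
    exact this

theorem att_range {b k : ℕ} (m : ℕ) : rep b k ∣ ∑ e ∈ range (k * m), b ^ e := by
  induction m with
  | zero => simp
  | succ m ih =>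
    rw [Nat.mul_succ, sum_range_add]
    refine dvd_add ih ⟨b ^ (k * m), ?_⟩
    unfold rep
    rw [sum_mul]
    refine sum_congr rfl fun i _ => ?_
    rw [pow_add, mul_comm]

theorem pow_modEq {b k : ℕ} (hb : 1 ≤ b) : b ^ k ≡ 1 [MOD rep b k] := by
  have h := rep_mul hb k
  have hpos : 1 ≤ b ^ k := Nat.one_le_pow _ _ (by omega)
  exact ((Nat.modEq_iff_dvd' hpos).2 (h ▸ Dvd.intro_left _ rfl)).symm

theorem step {b k : ℕ} (hb : 2 ≤ b) (hk : 2 ≤ k) {S : Finset ℕ} (hS : S.Nonempty)
    (hd : rep b k ∣ ∑ e ∈ S, b ^ e) :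
    ∃ S' : Finset ℕ, S'.Nonempty ∧ rep b k ∣ ∑ e ∈ S', b ^ e ∧ S'.card = S.card + (b - 1) := by
  set a := S.max' hS with ha
  have haS : a ∈ S := S.max'_mem hS
  set T := (range b).image (fun j => a + (k - 1) + k * j) with hT
  have hinj : Function.Injective (fun j : ℕ => a + (k - 1) + k * j) := by
    intro x y hxy
    simp only [add_right_inj] at hxy
    exact Nat.eq_of_mul_eq_mul_left (by omega) hxy
  have hcT : T.card = b := by
    rw [hT, card_image_of_injective _ hinj, card_range]
  have hdisj : Disjoint (S.erase a) T := by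
    rw [Finset.disjoint_left]
    intro x hx hxT
    have h1 := S.le_max' x (mem_of_mem_erase hx)
    rw [hT, mem_image] at hxT
    obtain ⟨j, _, hj⟩ := hxT
    rw [← ha] at h1
    have : 0 ≤ k * j := Nat.zero_le _
    omega
  have hcE : (S.erase a).card = S.card - 1 := card_erase_of_mem haS
  have hSc : 1 ≤ S.card := hS.card_pos
  refine ⟨S.erase a ∪ T, ?_, ?_, ?_⟩
  · have : T.Nonempty := by
      rw [← card_pos, hcT]; omega
    exact this.mono subset_union_right
  · rw [sum_union hdisj]
    have e1 : ∑ e ∈ S, b ^ e = ∑ e ∈ S.erase a, b ^ e + b ^ a := (sum_erase_add S _ haS).symm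
    have e2 : ∑ e ∈ T, b ^ e ≡ b ^ a [MOD rep b k] := by
      rw [hT, sum_image (fun x _ y _ h => hinj h)]
      have hp := pow_modEq (b := b) (k := k) (by omega)
      have e3 : ∑ j ∈ range b, b ^ (a + (k - 1) + k * j) ≡
          ∑ j ∈ range b, b ^ (a + (k - 1)) [MOD rep b k] := by
        have : ∀ s : Finset ℕ, ∑ j ∈ s, b ^ (a + (k - 1) + k * j) ≡
            ∑ j ∈ s, b ^ (a + (k - 1)) [MOD rep b k] := by
          intro s
          induction s using Finset.induction_on with
          | empty => exact Nat.ModEq.refl _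
          | insert x s hx ih =>
            rw [sum_insert hx, sum_insert hx]
            refine Nat.ModEq.add ?_ ih
            rw [pow_add, pow_mul]
            have := (hp.pow x).mul_left (b ^ (a + (k - 1)))
            rwa [one_pow, mul_one] at this
        exact this _
      refine e3.trans ?_
      rw [sum_const, card_range, smul_eq_mul]
      have e4 : b * b ^ (a + (k - 1)) = b ^ a * b ^ k := by
        rw [← pow_succ', ← pow_add]
        congr 1
        omega
      rw [e4]
      have := hp.mul_left (b ^ a)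
      rwa [mul_one] at this
    rw [e1] at hd
    have e5 : ∑ e ∈ S.erase a, b ^ e + ∑ e ∈ T, b ^ e ≡ ∑ e ∈ S.erase a, b ^ e + b ^ a
        [MOD rep b k] := Nat.ModEq.add_left _ e2
    exact (e5.dvd_iff dvd_rfl).2 hd
  · rw [card_union_of_disjoint hdisj, hcE, hcT]
    omega

theorem attained {b k m : ℕ} (hb : 2 ≤ b) (hk : 2 ≤ k) (hm : 1 ≤ m) : ∀ t : ℕ,
    ∃ S : Finset ℕ, S.Nonempty ∧ rep b k ∣ ∑ e ∈ S, b ^ e ∧ S.card = k * m + (b - 1) * t
  | 0 => ⟨range (k * m), by
      rw [nonempty_range_iff]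
      have : 0 < k * m := Nat.mul_pos (by omega) (by omega)
      omega, att_range m, by simp⟩
  | t + 1 => by
    obtain ⟨S, hS, hd, hc⟩ := attained hb hk hm t
    obtain ⟨S', hS', hd', hc'⟩ := step hb hk hS hd
    exact ⟨S', hS', hd', by rw [hc', hc]; ring⟩

theorem mem {b k : ℕ} (hb : 2 ≤ b) (hk : 2 ≤ k) (hco : Nat.Coprime (b - 1) (rep b k)) {u : ℕ}
    (hu : (k - 1) * (b - 1) < u) : u ∈ Out b (rep b k) := by
  have hck : Nat.Coprime k (b - 1) := by
    have h := (rep_modEq (b := b) (by omega) k).gcd_eq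
    rw [Nat.Coprime] at hco ⊢
    rw [← h, Nat.gcd_comm]
    exact hco
  obtain ⟨m, hm1, hm2, hm3⟩ : ∃ m, 1 ≤ m ∧ m ≤ b - 1 ∧ k * m ≡ u [MOD (b - 1)] := by
    obtain ⟨x, hx⟩ : ∃ x, k * x ≡ u [MOD (b - 1)] := by
      rcases Nat.lt_or_ge b 3 with h | h
      · refine ⟨0, ?_⟩
        rw [show b - 1 = 1 by omega]
        exact Nat.modEq_one
      · obtain ⟨y, hy⟩ := Nat.exists_mul_mod_eq_one_of_coprime hck (by omega)
        refine ⟨y * u, ?_⟩
        have h1 : k * y ≡ 1 [MOD (b - 1)] := by
          rw [Nat.ModEq, hy.2, Nat.mod_eq_of_lt (by omega)]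
        have := h1.mul_right u
        rwa [one_mul, mul_assoc] at this
    rcases Nat.eq_zero_or_pos (x % (b - 1)) with h | h
    · refine ⟨b - 1, by omega, le_rfl, ?_⟩
      refine Nat.ModEq.trans ?_ hx
      have h1 : x ≡ b - 1 [MOD (b - 1)] := by
        rw [Nat.ModEq, h, Nat.mod_self]
      exact (h1.mul_left k).symm
    · refine ⟨x % (b - 1), h, (Nat.mod_lt _ (by omega)).le, ?_⟩
      exact ((Nat.mod_modEq x (b - 1)).mul_left k).trans hx
  have hle : k * m ≤ u := by
    by_contra hlt
    push Not at hlt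
    have h1 : (b - 1) ∣ k * m - u := (Nat.modEq_iff_dvd' hlt.le).1 hm3.symm
    have h2 : b - 1 ≤ k * m - u := Nat.le_of_dvd (by omega) h1
    have h3 : k * m ≤ k * (b - 1) := Nat.mul_le_mul_left _ hm2
    have h4 : k * (b - 1) = (k - 1) * (b - 1) + (b - 1) := by
      obtain ⟨c, rfl⟩ : ∃ c, k = c + 1 := ⟨k - 1, by omega⟩
      rw [Nat.add_sub_cancel]; ring
    omega
  obtain ⟨t, ht⟩ : (b - 1) ∣ u - k * m := (Nat.modEq_iff_dvd' hle).1 hm3
  obtain ⟨S, hS, hd, hc⟩ := attained hb hk hm1 t
  refine ⟨∑ e ∈ S, b ^ e, ?_, hd, ?_⟩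
  · exact sum_pos (fun e _ => by positivity) hS
  · rw [s_powers hb, hc]
    omega

/-- For `b ≥ 2`, `k ≥ 2` and `n = 1 + b + ... + b^(k - 1)` with `gcd(b - 1, n) = 1` the largest positive integer which is
not a digit sum of a positive multiple of `n` is `(k - 1) (b - 1)`. -/
theorem result (b k : ℕ) (hb : 2 ≤ b) (hk : 2 ≤ k) (hco : Nat.Coprime (b - 1) (rep b k)) :
    IsGreatest {u : ℕ | 0 < u ∧ u ∉ Out b (rep b k)} ((k - 1) * (b - 1)) := by
  refine ⟨⟨Nat.mul_pos (by omega) (by omega), not_mem hb hk hco⟩, ?_⟩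
  rintro u ⟨_, hu⟩
  by_contra hlt
  exact hu (mem hb hk hco (not_le.1 hlt))

end Pool.Agent.Results.MP_d7e141_nt.Repunits
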